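import Pool.Agent.Helper66_D2.Tool

/-!
# Squad PP, part D2, module MPJ: the module `M` is projective
-/

open scoped BigOperators

set_option autoImplicit false
set_option linter.unusedSectionVars false

noncomputable section

namespace Pool.Agent.PP.CD2.H76

open Pool.Agent.PP Pool.Agent.Helper51_AWC Pool.Agent.Helper79_WRA Pool.Agent.PP.H20
open Pool.Agent.PP.CD2 Pool.Agent.PP.CD2.H66

variable {F : Type} [Field F] {G : Type} [Group G] [Finite G]

/-- left translation -/
def LT (g : G) : (G → F) →ₗ[F] (G → F) where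
  toFun x := fun y => x (g⁻¹ * y)
  map_add' _ _ := rfl
  map_smul' _ _ := rfl

theorem LT_apply (g : G) (x : G → F) : LT g x = fun y => x (g⁻¹ * y) := rfl

theorem toMA_LT (g : G) (x : G → F) : toMA (LT g x) = MonoidAlgebra.single g (1 : F) * toMA x := by
  rw [single_mul_toMA, LT_apply]

/-- the left ideal `b x = x = x i` -/
def VS (b i : G → F) : Submodule F (G → F) where
  carrier := {x | mulF b x = x ∧ mulF x i = x}
  add_mem' := by
    rintro x y ⟨h1, h2⟩ ⟨h3, h4⟩
    exact ⟨by rw [mulF_add, h1, h3], by rw [add_mulF, h2, h4]⟩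
  zero_mem' := ⟨mulF_zero _, zero_mulF _⟩
  smul_mem' := by
    rintro c x ⟨h1, h2⟩
    exact ⟨by rw [mulF_smul, h1], by rw [smul_mulF, h2]⟩

theorem mem_VS {b i x : G → F} : x ∈ VS b i ↔ mulF b x = x ∧ mulF x i = x := Iff.rfl

theorem LT_mem {b i : G → F} (hb : IsCl b) (g : G) {x : G → F} (hx : x ∈ VS b i) :
    LT g x ∈ VS b i := by
  obtain ⟨h1, h2⟩ := hx
  constructor
  · apply toMA_injective
    rw [toMA_mulF, toMA_LT, ← mul_assoc, (H20.isCl_iff b).1 hb, mul_assoc, ← toMA_mulF, h1]
  · apply toMA_injective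
    rw [toMA_mulF, toMA_LT, mul_assoc, ← toMA_mulF, h2]

/-- the representation on the left ideal -/
def rV {b : G → F} (hb : IsCl b) (i : G → F) : Representation F G (VS b i) where
  toFun g := (LT g).restrict fun x hx => LT_mem hb g hx
  map_one' := by
    ext x y
    simp [LT]
  map_mul' g h := by
    ext x y
    simp [LT, mul_assoc]

theorem rV_coe {b : G → F} (hb : IsCl b) (i : G → F) (g : G) (x : VS b i) :
    ((rV hb i g x : VS b i) : G → F) = LT g (x : G → F) := rfl

theorem evV_coe {b : G → F} (hb : IsCl b) (i a : G → F) (x : VS b i) :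
    ((evV (rV hb i) a x : VS b i) : G → F) = mulF a (x : G → F) := by
  have := Fintype.ofFinite G
  rw [D66.evV_apply]
  funext y
  rw [AddSubmonoidClass.coe_finsetSum, Finset.sum_apply, mulF, finsum_eq_sum_of_fintype]
  refine Finset.sum_congr rfl fun g _ => ?_
  rfl

/-- the endomorphism `x ↦ x(1) b i` -/
def psi {b i : G → F} (h : mulF b i ∈ VS b i) : VS b i →ₗ[F] VS b i where
  toFun x := (x : G → F) 1 • (⟨mulF b i, h⟩ : VS b i)
  map_add' x y := by
    rw [← add_smul]
    rfl
  map_smul' c x := by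
    rw [RingHom.id_apply, smul_smul]
    rfl

theorem pjR {b i : G → F} (hb : IsIdem b) (hi : mulF i i = i) : PjR b (rV hb.1 i) := by
  have := Fintype.ofFinite G
  have hbi : mulF b i ∈ VS b i := by
    refine ⟨?_, ?_⟩
    · rw [← mulF_assoc, hb.2]
    · rw [mulF_assoc, hi]
  refine ⟨?_, psi hbi, ?_⟩
  · intro v
    apply Subtype.ext
    rw [evV_coe]
    exact v.2.1
  · rw [finsum_eq_sum_of_fintype]
    ext1 x
    apply Subtype.ext
    rw [LinearMap.sum_apply, AddSubmonoidClass.coe_finsetSum, LinearMap.id_apply]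
    have h1 : ∀ g : G, (((rV hb.1 i g ∘ₗ psi hbi ∘ₗ rV hb.1 i g⁻¹) x : VS b i) : G → F) =
        (x : G → F) g • LT g (mulF b i) := by
      intro g
      rw [LinearMap.comp_apply, LinearMap.comp_apply, rV_coe]
      have h2 : ((psi hbi (rV hb.1 i g⁻¹ x) : VS b i) : G → F) =
          (x : G → F) g • mulF b i := by
        change ((rV hb.1 i g⁻¹ x : VS b i) : G → F) 1 • mulF b i = _
        rw [rV_coe, LT_apply]
        simp only [inv_inv, mul_one]
      rw [h2, map_smul]
    rw [Finset.sum_congr rfl fun g _ => h1 g]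
    have h3 : ∑ g : G, (x : G → F) g • LT g (mulF b i) = mulF (x : G → F) (mulF b i) := by
      funext y
      rw [Finset.sum_apply, mulF, finsum_eq_sum_of_fintype]
      refine Finset.sum_congr rfl fun g _ => ?_
      rfl
    rw [h3, ← mulF_assoc, ← mulF_comm_of_cl hb.1, x.2.1, x.2.2]

theorem mpj : MpjStmt := by
  intro F _ G _ _ b i i' hb hi hbi' hi' c hc
  have h1 := hc (VS b i) (rV hb.1 i) (pjR hb hi)
  have h2 : Submodule.span F {x : G → F | mulF i' x = x ∧ mulF x i = x} =
      (LinearMap.range (evV (rV hb.1 i) i')).map (VS b i).subtype := by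
    apply le_antisymm
    · rw [Submodule.span_le]
      rintro x ⟨hx1, hx2⟩
      have hxb : mulF b x = x := by
        rw [← hx1, ← mulF_assoc, hbi']
      refine ⟨⟨x, hxb, hx2⟩, ⟨⟨x, hxb, hx2⟩, ?_⟩, rfl⟩
      apply Subtype.ext
      rw [evV_coe]
      exact hx1
    · rintro _ ⟨_, ⟨x, rfl⟩, rfl⟩
      apply Submodule.subset_span
      refine ⟨?_, ?_⟩
      · rw [Submodule.subtype_apply, evV_coe, ← mulF_assoc, hi']
      · rw [Submodule.subtype_apply, evV_coe, mulF_assoc, x.2.2]
  rw [h2, Submodule.finrank_map_subtype_eq]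
  exact h1

end Pool.Agent.PP.CD2.H76
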